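import Pool.Agent.H224R2.Mah.Defs

/-!
# A3_sign: signs of `Re arctan` and `Re U`
-/

namespace Pool.Agent.H224R2.Mah

open MeasureTheory Set Filter Topology Complex
open scoped ENNReal RealInnerProductSpace

namespace A3S

/-- the quotient in the definition of `arctan` -/
lemma quot_re_im {z : ℂ} (hz : ‖z‖ < 1) :
    0 < ((1 + z * I) / (1 - z * I)).re ∧
      (0 < z.re → 0 < ((1 + z * I) / (1 - z * I)).im) ∧
      (z.re < 0 → ((1 + z * I) / (1 - z * I)).im < 0) ∧
      (z.re = 0 → ((1 + z * I) / (1 - z * I)).im = 0) := by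
  have hne : (1 - z * I) ≠ 0 := by
    intro h
    have h1 : z * I = 1 := by linear_combination -h
    have h2 : ‖z * I‖ = 1 := by rw [h1]; simp
    rw [norm_mul, Complex.norm_I, mul_one] at h2
    linarith
  have hpos : 0 < normSq (1 - z * I) := normSq_pos.mpr hne
  have hsq : z.re * z.re + z.im * z.im < 1 := by
    have h1 : ‖z‖ ^ 2 < 1 := by
      have := norm_nonneg z
      nlinarith
    rw [Complex.sq_norm, normSq_apply] at h1
    exact h1
  have hre : ((1 + z * I) / (1 - z * I)).re =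
      (1 - (z.re * z.re + z.im * z.im)) / normSq (1 - z * I) := by
    rw [Complex.div_re]
    simp
    field_simp
    ring
  have him : ((1 + z * I) / (1 - z * I)).im = (2 * z.re) / normSq (1 - z * I) := by
    rw [Complex.div_im]
    simp
    field_simp
    ring
  refine ⟨?_, ?_, ?_, ?_⟩
  · rw [hre]
    apply div_pos _ hpos
    linarith
  · intro h
    rw [him]
    positivity
  · intro h
    rw [him]
    exact div_neg_of_neg_of_pos (by linarith) hpos
  · intro h
    rw [him, h]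
    simp

lemma arctan_re (z : ℂ) :
    (Complex.arctan z).re = Complex.arg ((1 + z * I) / (1 - z * I)) / 2 := by
  unfold Complex.arctan
  rw [Complex.mul_re, Complex.log_im, Complex.log_re]
  simp
  ring

lemma arctan_pos {z : ℂ} (hz : ‖z‖ < 1) (h : 0 < z.re) : 0 < (Complex.arctan z).re := by
  obtain ⟨h1, h2, -, -⟩ := quot_re_im hz
  have h3 := h2 h
  rw [arctan_re]
  have h4 : 0 ≤ Complex.arg ((1 + z * I) / (1 - z * I)) := Complex.arg_nonneg_iff.mpr h3.le
  have h5 : Complex.arg ((1 + z * I) / (1 - z * I)) ≠ 0 := by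
    intro h6
    rw [Complex.arg_eq_zero_iff] at h6
    exact h3.ne' h6.2
  have := lt_of_le_of_ne h4 (Ne.symm h5)
  linarith

lemma arctan_neg' {z : ℂ} (hz : ‖z‖ < 1) (h : z.re < 0) : (Complex.arctan z).re < 0 := by
  obtain ⟨h1, -, h2, -⟩ := quot_re_im hz
  have h3 := h2 h
  rw [arctan_re]
  have h4 := Complex.arg_neg_iff.mpr h3
  linarith

lemma arctan_zero' {z : ℂ} (hz : ‖z‖ < 1) (h : z.re = 0) : (Complex.arctan z).re = 0 := by
  obtain ⟨h1, -, -, h2⟩ := quot_re_im hz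
  have h3 := h2 h
  rw [arctan_re]
  have h4 := Complex.arg_eq_zero_iff.mpr ⟨h1.le, h3⟩
  rw [h4]
  simp

lemma arctan_abs {z : ℂ} (hz : ‖z‖ < 1) : |(Complex.arctan z).re| < Real.pi / 4 := by
  obtain ⟨h1, -, -, -⟩ := quot_re_im hz
  rw [arctan_re, abs_div]
  have h4 := Complex.abs_arg_lt_pi_div_two_iff.mpr (Or.inl h1)
  rw [abs_of_pos (by norm_num : (0:ℝ) < 2)]
  linarith

lemma U_neg (z : ℂ) : U (-z) = - U z := by
  unfold U
  rw [← mul_neg, ← tsum_neg]
  congr 1
  apply tsum_congr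
  intro k
  rw [Odd.neg_pow ⟨k, rfl⟩]
  ring

lemma U_conj (z : ℂ) : U ((starRingEnd ℂ) z) = (starRingEnd ℂ) (U z) := by
  unfold U
  rw [map_mul, Complex.conj_ofReal, Complex.conj_tsum]
  congr 1
  apply tsum_congr
  intro k
  simp only [map_div₀, map_mul, map_pow, map_neg, map_one, map_natCast]

lemma U_zero : U 0 = 0 := by
  have h := U_neg 0
  rw [neg_zero] at h
  have h2 : (2:ℂ) * U 0 = 0 := by linear_combination h
  simpa using h2

lemma U_pos (A1 : ∀ {ζ : ℂ}, ‖ζ‖ < 1 → HasDerivAt U (U' ζ) ζ ∧ DifferentiableAt ℂ U' ζ ∧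
      ζ * U' ζ = ((8 / Real.pi ^ 2 : ℝ) : ℂ) * Complex.arctan ζ)
    {z : ℂ} (hz : ‖z‖ < 1) (h : 0 < z.re) : 0 < (U z).re := by
  -- g t = Re U (t z)
  have hnorm : ∀ t : ℝ, t ∈ Icc (0:ℝ) 1 → ‖(t:ℂ) * z‖ < 1 := by
    intro t ht
    rw [norm_mul, Complex.norm_real, Real.norm_of_nonneg ht.1]
    have := norm_nonneg z
    nlinarith [ht.1, ht.2]
  have hd : ∀ t : ℝ, t ∈ Icc (0:ℝ) 1 →
      HasDerivAt (fun s : ℝ => (U ((s:ℂ) * z)).re) (z * U' ((t:ℂ) * z)).re t := by
    intro t ht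
    have h1 := (A1 (hnorm t ht)).1
    have h2 : HasDerivAt (fun s : ℝ => (s:ℂ) * z) (1 * z) t :=
      (Complex.ofRealCLM.hasDerivAt (x := t)).mul_const z
    have h3 := h1.comp_of_eq t h2 rfl
    have h4 : HasDerivAt (fun s : ℝ => U ((s:ℂ) * z)) (z * U' ((t:ℂ) * z)) t := by
      refine (h3.congr_deriv ?_)
      ring
    exact (Complex.reCLM.hasFDerivAt.comp_hasDerivAt t h4)
  have hmono : StrictMonoOn (fun s : ℝ => (U ((s:ℂ) * z)).re) (Icc 0 1) := by
    apply strictMonoOn_of_deriv_pos (convex_Icc 0 1)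
    · intro t ht
      exact (hd t ht).continuousAt.continuousWithinAt
    · intro t ht
      rw [interior_Icc] at ht
      have ht' : t ∈ Icc (0:ℝ) 1 := ⟨ht.1.le, ht.2.le⟩
      rw [(hd t ht').deriv]
      have h1 := (A1 (hnorm t ht')).2.2
      have h2 : (t:ℂ) * (z * U' ((t:ℂ) * z)) =
          ((8 / Real.pi ^ 2 : ℝ) : ℂ) * Complex.arctan ((t:ℂ) * z) := by
        rw [← h1]; ring
      have h3 := congrArg Complex.re h2
      rw [Complex.re_ofReal_mul, Complex.re_ofReal_mul] at h3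
      have h4 : 0 < (Complex.arctan ((t:ℂ) * z)).re := by
        apply arctan_pos (hnorm t ht')
        rw [Complex.re_ofReal_mul]
        exact mul_pos ht.1 h
      have h5 : 0 < t * (z * U' ((t:ℂ) * z)).re := by
        rw [h3]
        positivity
      exact (pos_iff_pos_of_mul_pos h5).mp ht.1
  have := hmono (left_mem_Icc.mpr zero_le_one) (right_mem_Icc.mpr zero_le_one) zero_lt_one
  simpa [U_zero] using this

end A3S

/-- A3b (from A1). `arctan` maps the right half disc to `{0 < Re < π/4}`, `U` preserves the sign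
of `Re`. -/
theorem A3_sign_of (A1 : ∀ {ζ : ℂ}, ‖ζ‖ < 1 → HasDerivAt U (U' ζ) ζ ∧ DifferentiableAt ℂ U' ζ ∧
      ζ * U' ζ = ((8 / Real.pi ^ 2 : ℝ) : ℂ) * Complex.arctan ζ) {ζ : ℂ} (hζ : ‖ζ‖ < 1) :
    (0 < ζ.re → 0 < (Complex.arctan ζ).re ∧ 0 < (U ζ).re) ∧ |(Complex.arctan ζ).re| < Real.pi / 4 ∧
      Real.sign (U ζ).re = Real.sign ζ.re ∧
      Real.sign (Complex.arctan ζ).re = Real.sign ζ.re := by
  refine ⟨fun h => ⟨A3S.arctan_pos hζ h, A3S.U_pos A1 hζ h⟩, A3S.arctan_abs hζ, ?_, ?_⟩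
  · rcases lt_trichotomy ζ.re 0 with h | h | h
    · have h1 : 0 < (U (-ζ)).re := A3S.U_pos A1 (by rwa [norm_neg]) (by simpa using h)
      rw [A3S.U_neg, Complex.neg_re] at h1
      rw [Real.sign_of_neg h, Real.sign_of_neg (by linarith)]
    · have h1 : (starRingEnd ℂ) ζ = -ζ := by
        apply Complex.ext
        · simp [h]
        · simp
      have h2 := A3S.U_conj ζ
      rw [h1, A3S.U_neg] at h2
      have h3 := congrArg Complex.re h2
      simp only [Complex.neg_re, Complex.conj_re] at h3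
      have h4 : (U ζ).re = 0 := by linarith
      rw [h, h4]
    · rw [Real.sign_of_pos h, Real.sign_of_pos (A3S.U_pos A1 hζ h)]
  · rcases lt_trichotomy ζ.re 0 with h | h | h
    · rw [Real.sign_of_neg h, Real.sign_of_neg (A3S.arctan_neg' hζ h)]
    · rw [h, A3S.arctan_zero' hζ h]
    · rw [Real.sign_of_pos h, Real.sign_of_pos (A3S.arctan_pos hζ h)]

end Pool.Agent.H224R2.Mah
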